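import Pool.Agent.helper56.P3.ClDefs

/-!
# P3-C, module CL3: the symmetric functions determine the set of multipliers
-/

namespace Pool.Agent.helper56.P3

open Finset Pool.Agent.helper56.Per

theorem perm_of_sym {K : Type*} [Field K] {a b c a' b' c' : K}
    (h1 : a' + b' + c' = a + b + c) (h2 : a' * b' + a' * c' + b' * c' = a * b + a * c + b * c)
    (h3 : a' * b' * c' = a * b * c) :
    (a' = a ∧ (b' = b ∨ b' = c)) ∨ (a' = b ∧ (b' = a ∨ b' = c)) ∨
      (a' = c ∧ (b' = a ∨ b' = b)) := by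
  have key : (a' - a) * ((a' - b) * (a' - c)) = 0 := by
    linear_combination (a' ^ 2) * (-h1) * (-1) - a' * h2 + h3
  have aux : ∀ {x y z : K}, a' = x → x + y + z = a + b + c →
      x * y + x * z + y * z = a * b + a * c + b * c → (b' = y ∨ b' = z) := by
    intro x y z hx e1 e2
    have : (b' - y) * (b' - z) = 0 := by
      subst hx
      linear_combination (b' + a') * h1 - (b' + a') * e1 - h2 + e2
    rcases mul_eq_zero.1 this with h | h
    · exact Or.inl (sub_eq_zero.1 h)
    · exact Or.inr (sub_eq_zero.1 h)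
  rcases mul_eq_zero.1 key with h | h
  · have ha := sub_eq_zero.1 h
    exact Or.inl ⟨ha, aux ha rfl rfl⟩
  · rcases mul_eq_zero.1 h with h | h
    · have ha := sub_eq_zero.1 h
      exact Or.inr (Or.inl ⟨ha, aux ha (by ring) (by ring)⟩)
    · have ha := sub_eq_zero.1 h
      exact Or.inr (Or.inr ⟨ha, aux ha (by ring) (by ring)⟩)

theorem third_rel {K : Type*} [Field K] {a b : K} (hab : a * b ≠ 1) :
    a * b * ((2 - a - b) / (1 - a * b)) = sg1 a b - 2 := by
  have h0 : 1 - a * b ≠ 0 := sub_ne_zero.2 (Ne.symm hab)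
  unfold sg1
  field_simp
  ring

/-- the symmetric functions determine the set of multipliers -/
theorem sg_eq {K : Type*} [Field K] {a b a' b' : K} (hab : a * b ≠ 1) (hab' : a' * b' ≠ 1)
    (h1 : sg1 a b = sg1 a' b') (h2 : sg2 a b = sg2 a' b') :
    ∀ Q : K → K → Prop, TS Q a b ((2 - a - b) / (1 - a * b)) → Q a' b' := by
  intro Q hT
  have e3 := third_rel hab
  have e3' := third_rel hab'
  rw [← h1, ← e3] at e3'
  have p := perm_of_sym (a := a) (b := b) (c := (2 - a - b) / (1 - a * b)) (a' := a') (b' := b')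
    (c' := (2 - a' - b') / (1 - a' * b')) h1.symm (by
      unfold sg2 at h2
      linear_combination -h2) e3'
  generalize (2 - a - b) / (1 - a * b) = c at hT p
  rcases p with ⟨rfl, rfl | rfl⟩ | ⟨rfl, rfl | rfl⟩ | ⟨rfl, rfl | rfl⟩
  · exact hT.ab hab
  · exact hT.ac hab'
  · exact hT.ba hab
  · exact hT.bc hab'
  · exact hT.ca (by rwa [mul_comm] at hab')
  · exact hT.cb (by rwa [mul_comm] at hab')

theorem QC.swap {K : Type*} [Field K] {a b L : K} {n : ℕ} (h : QC n L a b) : QC n L b a := by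
  obtain ⟨z, hz, hx⟩ := h
  exact ⟨_, hz.swap, fun i j hij => hx i j (inv_injective hij)⟩

theorem QC.psi {K : Type*} [Field K] {a b L : K} {n : ℕ} (hab : a * b ≠ 1) (ha : a ≠ 1)
    (h : QC n L a b) : QC n L a ((2 - a - b) / (1 - a * b)) := by
  obtain ⟨z, hz, hx⟩ := h
  exact ⟨_, hz.psi hab ha, fun i j hij => hx i j (psi_inj hab ha (hz.avoid i) (hz.avoid j) hij)⟩

theorem QC.transfer {K : Type*} [Field K] {a b a' b' L : K} {n : ℕ} (hab : a * b ≠ 1)
    (hab' : a' * b' ≠ 1) (h1 : sg1 a b = sg1 a' b') (h2 : sg2 a b = sg2 a' b')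
    (h : QC n L a b) : QC n L a' b' :=
  sg_eq hab hab' h1 h2 (QC n L)
    (TS.of (fun _ _ h => h.swap) (fun _ _ h1 h2 h => h.psi h1 h2) hab h)

/-- `a` is a root of the multiplier polynomial -/
theorem sg_root {K : Type*} [Field K] {a b : K} (hab : a * b ≠ 1) :
    a ^ 3 - sg1 a b * a ^ 2 + sg2 a b * a - (sg1 a b - 2) = 0 ∧
    b ^ 3 - sg1 a b * b ^ 2 + sg2 a b * b - (sg1 a b - 2) = 0 := by
  rw [← third_rel hab]
  unfold sg1 sg2
  generalize (2 - a - b) / (1 - a * b) = c
  constructor <;> ring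

end Pool.Agent.helper56.P3
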