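import Pool.Agent.helper56.P3.Defs2

/-!
# P3, module B2: dominating valuations, constancy
-/

namespace Pool.Agent.helper56.P3

open Finset Pool.Agent.helper56.Per

section B2

variable {k K : Type*} [Field k] [Field K] [Algebra k K] {O : ValuationSubring k} {g : K}
  {ν0 ν : ValuationSubring K}

namespace B2

theorem A0_le_Bp : A0 O g ≤ Bp O g :=
  fun x hx => (integralClosure (A0 O g) K).algebraMap_mem ⟨x, hx⟩

theorem alg_mem {α : k} (hα : α ∈ O) : algebraMap k K α ∈ Bp O g :=
  A0_le_Bp (Subring.subset_closure (Or.inl ⟨α, hα, rfl⟩))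

theorem g_mem : g ∈ Bp O g :=
  A0_le_Bp (Subring.subset_closure (Or.inr rfl))

theorem A0_le {R : Subring K} (h1 : ∀ α ∈ O, algebraMap k K α ∈ R) (h2 : g ∈ R) : A0 O g ≤ R := by
  unfold A0
  rw [Subring.closure_le]
  rintro x (⟨α, hα, rfl⟩ | hx)
  · exact h1 α hα
  · rw [Set.mem_singleton_iff] at hx
    rw [hx]; exact h2

theorem Bp_le (h1 : ∀ α ∈ O, algebraMap k K α ∈ ν) (h2 : g ∈ ν) :
    Bp O g ≤ ν.toSubring := by
  have : IsIntegrallyClosedIn ν.toSubring K := inferInstanceAs (IsIntegrallyClosedIn ν K)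
  exact Subring.integralClosure_subring_le_iff.2 (A0_le h1 h2)

theorem Bp_le_nu0 (hB : Base O g ν0) : Bp O g ≤ ν0.toSubring := by
  refine Bp_le (fun α hα => ?_) hB.mem
  rw [← ValuationSubring.valuation_le_one_iff]
  exact (hB.ext α).2 ((ValuationSubring.valuation_le_one_iff _ _).2 hα)

theorem Bp_val (hB : Base O g ν0) {x : K} (hx : x ∈ Bp O g) : ν0.valuation x ≤ 1 :=
  (ValuationSubring.valuation_le_one_iff _ _).2 (Bp_le_nu0 hB hx)

theorem Bp_le_Loc : Bp O g ≤ Loc O g ν0 :=
  fun x hx => ⟨1, one_mem _, map_one _, by rwa [one_mul]⟩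

theorem Loc_val (hB : Base O g ν0) {x : K} (hx : x ∈ Loc O g ν0) : ν0.valuation x ≤ 1 := by
  obtain ⟨s, hs, h1, h2⟩ := hx
  have := Bp_val hB h2
  rwa [map_mul, h1, one_mul] at this

/-- units of `Loc` -/
theorem Loc_inv (_hB : Base O g ν0) {x : K} (hx : x ∈ Loc O g ν0) (h : ν0.valuation x = 1) :
    x⁻¹ ∈ Loc O g ν0 := by
  obtain ⟨s, hs, h1, h2⟩ := hx
  refine ⟨s * x, h2, by rw [map_mul, h1, h, one_mul], ?_⟩
  have hx0 : x ≠ 0 := by rintro rfl; rw [map_zero] at h; exact zero_ne_one h
  rwa [mul_assoc, mul_inv_cancel₀ hx0, mul_one]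

theorem Bp_integral {x : K} (hx : IsIntegral (Bp O g) x) : x ∈ Bp O g := by
  have : IsIntegrallyClosedIn (Bp O g) K :=
    inferInstanceAs (IsIntegrallyClosedIn (integralClosure (A0 O g) K).toSubring K)
  exact (Subring.isIntegrallyClosedIn_iff).1 this hx

/-- common denominators -/
theorem common (f : ℕ → K) (t : Finset ℕ) (h : ∀ i ∈ t, f i ∈ Loc O g ν0) :
    ∃ s ∈ Bp O g, ν0.valuation s = 1 ∧ ∀ i ∈ t, s * f i ∈ Bp O g := by
  classical
  induction t using Finset.induction_on with
  | empty => exact ⟨1, one_mem _, map_one _, by simp⟩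
  | insert a t ha ih =>
    obtain ⟨s, hs, h1, h2⟩ := ih fun i hi => h i (Finset.mem_insert_of_mem hi)
    obtain ⟨r, hr, h3, h4⟩ := h a (Finset.mem_insert_self _ _)
    refine ⟨s * r, mul_mem hs hr, by rw [map_mul, h1, h3, one_mul], ?_⟩
    intro i hi
    rcases Finset.mem_insert.1 hi with rfl | hi
    · rw [mul_assoc]; exact mul_mem hs h4
    · rw [show s * r * f i = r * (s * f i) by ring]
      exact mul_mem hr (h2 i hi)

theorem Loc_integral {x : K} (hx : IsIntegral (Loc O g ν0) x) : x ∈ Loc O g ν0 := by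
  classical
  obtain ⟨p, hp, hpx⟩ := hx
  obtain ⟨s, hs, h1, h2⟩ := common (O := O) (g := g) (ν0 := ν0)
    (fun i => (p.coeff i : K)) (Finset.range (p.natDegree + 1)) (fun i _ => (p.coeff i).2)
  have hs0 : s ≠ 0 := by rintro rfl; rw [map_zero] at h1; exact zero_ne_one h1
  set P : Polynomial K := Polynomial.C s * p.map (Loc O g ν0).subtype with hP
  have hPc : ∀ i, P.coeff i = s * (p.coeff i : K) := by
    intro i
    rw [hP, Polynomial.coeff_C_mul, Polynomial.coeff_map]; rfl
  have hPm : ∀ i, P.coeff i ∈ Bp O g := by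
    intro i
    rw [hPc]
    by_cases hi : i ∈ Finset.range (p.natDegree + 1)
    · exact h2 i hi
    · have : p.coeff i = 0 := by
        apply Polynomial.coeff_eq_zero_of_natDegree_lt
        rw [Finset.mem_range] at hi; omega
      rw [this]; simp [zero_mem]
  have hPs : (↑P.coeffs : Set K) ⊆ (Bp O g : Set K) := by
    intro y hy
    rw [Finset.mem_coe, Polynomial.mem_coeffs_iff] at hy
    obtain ⟨n, _, rfl⟩ := hy
    exact hPm n
  set Q := P.toSubring (Bp O g) hPs with hQ
  have hQP : Q.map (algebraMap (Bp O g) K) = P := by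
    ext i
    rw [Polynomial.coeff_map]
    exact Polynomial.coeff_toSubring P (Bp O g) hPs
  have hroot : Polynomial.aeval x Q = 0 := by
    rw [Polynomial.aeval_def, ← Polynomial.eval_map, hQP, hP, Polynomial.eval_mul,
      Polynomial.eval_C, Polynomial.eval_map]
    have : Polynomial.eval₂ (Loc O g ν0).subtype x p = 0 := hpx
    rw [this, mul_zero]
  have hlead : (Q.leadingCoeff : K) = s := by
    have h3 : Q.natDegree = p.natDegree := by
      rw [hQ, Polynomial.natDegree_toSubring, hP, Polynomial.natDegree_C_mul hs0,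
        Polynomial.natDegree_map_eq_of_injective (Subring.subtype_injective _)]
    rw [Polynomial.leadingCoeff, h3, hQ, Polynomial.coeff_toSubring, hPc,
      show p.coeff p.natDegree = 1 from hp]
    simp
  have hint := isIntegral_leadingCoeff_smul (R := Bp O g) Q x hroot
  have h5 : Q.leadingCoeff • x = s * x := by
    rw [← hlead]; rfl
  rw [h5] at hint
  exact ⟨s, hs, h1, Bp_integral hint⟩

/-- `Loc` as a local subring -/
theorem isLocal (hB : Base O g ν0) : IsLocalRing (Loc O g ν0) := by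
  refine IsLocalRing.of_isUnit_or_isUnit_one_sub_self fun a => ?_
  have hu : ∀ b : Loc O g ν0, ν0.valuation (b : K) = 1 → IsUnit b := by
    intro b hb
    rw [isUnit_iff_exists_inv]
    refine ⟨⟨(b : K)⁻¹, Loc_inv hB b.2 hb⟩, Subtype.ext ?_⟩
    have hb0 : (b : K) ≠ 0 := by
      intro h; rw [h, map_zero] at hb; exact zero_ne_one hb
    exact mul_inv_cancel₀ hb0
  rcases (Loc_val hB a.2).lt_or_eq with h | h
  · right
    apply hu
    have : ν0.valuation (1 - (a : K)) = 1 := by
      rw [Valuation.map_one_sub_of_lt _ h]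
    exact this
  · exact Or.inl (hu a h)

theorem isUnit_of (hB : Base O g ν0) {b : Loc O g ν0} (hb : ν0.valuation (b : K) = 1) :
    IsUnit b := by
  rw [isUnit_iff_exists_inv]
  refine ⟨⟨(b : K)⁻¹, Loc_inv hB b.2 hb⟩, Subtype.ext ?_⟩
  have hb0 : (b : K) ≠ 0 := by
    intro h; rw [h, map_zero] at hb; exact zero_ne_one hb
  exact mul_inv_cancel₀ hb0

/-- a valuation ring containing `Loc` in which the small elements of `Bp` are small -/
theorem dom_of (hB : Base O g ν0) (h1 : Loc O g ν0 ≤ ν.toSubring)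
    (h2 : ∀ x ∈ Bp O g, ν0.valuation x < 1 → ν.valuation x < 1) : Dom O g ν0 ν := by
  refine ⟨Bp_le_Loc.trans h1, fun x hx => ⟨fun h => ?_, h2 x hx⟩⟩
  by_contra hc
  have h3 : ν0.valuation x = 1 := le_antisymm (Bp_val hB hx) (not_lt.1 hc)
  have h4 := h1 (Loc_inv hB (Bp_le_Loc hx) h3)
  have h5 : ν.valuation x⁻¹ ≤ 1 := (ValuationSubring.valuation_le_one_iff _ _).2 h4
  have hx0 : x ≠ 0 := by rintro rfl; rw [map_zero] at h3; exact zero_ne_one h3
  rw [map_inv₀, inv_le_one₀ (zero_lt_iff.2 ((ν.valuation.ne_zero_iff).2 hx0))] at h5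
  exact absurd h (not_lt.2 h5)

end B2

open B2

theorem dom_self (hB : Base O g ν0) : Dom O g ν0 ν0 :=
  ⟨Bp_le_nu0 hB, fun _ _ => Iff.rfl⟩

theorem dom_ext (hB : Base O g ν0) (h : Dom O g ν0 ν) : Ext O ν.valuation := by
  intro α
  constructor
  · intro hα
    by_contra hc
    rw [not_le] at hc
    have hα0 : α ≠ 0 := by rintro rfl; rw [map_zero] at hc; exact not_lt_zero hc
    have h1 : O.valuation α⁻¹ < 1 := by
      rw [map_inv₀]; exact inv_lt_one_of_one_lt₀ hc
    have h2 : ν0.valuation (algebraMap k K α⁻¹) < 1 := (hB.ext.lt_one_iff _).2 h1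
    have h3 := (h.2 _ (alg_mem ((ValuationSubring.valuation_le_one_iff _ _).1 h1.le))).2 h2
    rw [map_inv₀, map_inv₀] at h3
    have hne : ν.valuation (algebraMap k K α) ≠ 0 :=
      (ν.valuation.ne_zero_iff).2 ((_root_.map_ne_zero _).2 hα0)
    rw [inv_lt_one₀ (zero_lt_iff.2 hne)] at h3
    exact absurd hα (not_le.2 h3)
  · intro hα
    rw [ValuationSubring.valuation_le_one_iff]
    exact h.1 (alg_mem ((ValuationSubring.valuation_le_one_iff _ _).1 hα))

theorem Dom.le_of_loc (h : Dom O g ν0 ν) {x : K} (hx : x ∈ Loc O g ν0) : ν.valuation x ≤ 1 := by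
  obtain ⟨s, hs, h1, h2⟩ := hx
  have h3 : ν.valuation s = 1 := by
    refine le_antisymm ((ValuationSubring.valuation_le_one_iff _ _).2 (h.1 hs)) ?_
    rw [← not_lt, h.2 s hs, h1]
    exact lt_irrefl _
  have h4 : ν.valuation (s * x) ≤ 1 := (ValuationSubring.valuation_le_one_iff _ _).2 (h.1 h2)
  rwa [map_mul, h3, one_mul] at h4

theorem Dom.lt_iff (h : Dom O g ν0 ν) {x : K} (hx : x ∈ Loc O g ν0) :
    ν.valuation x < 1 ↔ ν0.valuation x < 1 := by
  obtain ⟨s, hs, h1, h2⟩ := hx
  have h3 : ν.valuation s = 1 := by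
    refine le_antisymm ((ValuationSubring.valuation_le_one_iff _ _).2 (h.1 hs)) ?_
    rw [← not_lt, h.2 s hs, h1]
    exact lt_irrefl _
  have h4 := h.2 _ h2
  rwa [map_mul, map_mul, h1, h3, one_mul, one_mul] at h4

/-- an element of `Loc` which is a unit at one dominating valuation is invertible in `Loc` -/
theorem Dom.inv_mem (hB : Base O g ν0) (h : Dom O g ν0 ν) {x : K} (hx : x ∈ Loc O g ν0)
    (h1 : ν.valuation x = 1) : x⁻¹ ∈ Loc O g ν0 := by
  refine Loc_inv hB hx (le_antisymm (Loc_val hB hx) ?_)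
  rw [← not_lt, ← h.lt_iff hx, h1]
  exact lt_irrefl _

theorem const_le (hB : Base O g ν0) {x : K} (hx : ∀ ν, Dom O g ν0 ν → ν.valuation x ≤ 1) :
    x ∈ Loc O g ν0 := by
  by_contra hxL
  have hloc := isLocal hB
  have hcl : IsIntegrallyClosedIn (Loc O g ν0) K :=
    (Subring.isIntegrallyClosedIn_iff).2 fun {y} hy => Loc_integral hy
  let R : LocalSubring K := ⟨Loc O g ν0⟩
  have hclR : IsIntegrallyClosedIn R.toSubring K := hcl
  obtain ⟨V, hV, hxV⟩ := LocalSubring.exists_le_valuationSubring_of_isIntegrallyClosedIn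
    (R := R) (x := x) hxL
  have h1 : Loc O g ν0 ≤ V.toSubring := hV.1
  have hD : Dom O g ν0 V := by
    refine dom_of hB h1 fun y hy h => ?_
    by_contra hc
    rw [not_lt] at hc
    have hy1 : V.valuation y = 1 :=
      le_antisymm ((ValuationSubring.valuation_le_one_iff _ _).2 (h1 (Bp_le_Loc hy))) hc
    have hy0 : y ≠ 0 := by rintro rfl; rw [map_zero] at hy1; exact zero_ne_one hy1
    have hyV : y⁻¹ ∈ V := by
      rw [← ValuationSubring.valuation_le_one_iff, map_inv₀, hy1, inv_one]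
    obtain ⟨hV1, hV2⟩ := hV
    have hu : IsUnit (Subring.inclusion hV1 ⟨y, Bp_le_Loc hy⟩) := by
      rw [isUnit_iff_exists_inv]
      refine ⟨⟨y⁻¹, hyV⟩, Subtype.ext ?_⟩
      exact mul_inv_cancel₀ hy0
    have hu2 : IsUnit (⟨y, Bp_le_Loc hy⟩ : Loc O g ν0) := hV2.map_nonunit _ hu
    obtain ⟨⟨z, hz⟩, hyz⟩ := isUnit_iff_exists_inv.1 hu2
    have hyz' : y * z = 1 := congrArg Subtype.val hyz
    have h5 := Loc_val hB hz
    have h6 : ν0.valuation y * ν0.valuation z = 1 := by rw [← map_mul, hyz', map_one]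
    have h7 : ν0.valuation y * ν0.valuation z < 1 := mul_lt_one_of_lt_of_le h h5
    exact absurd h6 h7.ne
  exact hxV ((ValuationSubring.valuation_le_one_iff _ _).1 (hx V hD))

theorem const_fin (hB : Base O g ν0) {x : K} (s : Finset k)
    (hx : ∀ ν, Dom O g ν0 ν → ∃ α ∈ s, ν.valuation (x - algebraMap k K α) < 1)
    (hs : ∀ α ∈ s, α ∈ O) :
    ∃ α ∈ s, ∀ ν, Dom O g ν0 ν → ν.valuation (x - algebraMap k K α) < 1 := by
  have hxL : x ∈ Loc O g ν0 := by
    refine const_le hB fun ν hν => ?_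
    obtain ⟨α, hα, h⟩ := hx ν hν
    have h1 : ν.valuation (algebraMap k K α) ≤ 1 := hν.le_of_loc (Bp_le_Loc (alg_mem (hs α hα)))
    have h2 := ν.valuation.map_add_le h.le h1
    rwa [sub_add_cancel] at h2
  obtain ⟨α, hα, h⟩ := hx ν0 (dom_self hB)
  refine ⟨α, hα, fun ν hν => ?_⟩
  exact (hν.lt_iff (sub_mem hxL (Bp_le_Loc (alg_mem (hs α hα))))).2 h

theorem const_P1 [IsAlgClosed k] (hB : Base O g ν0) {x : K}
    (hx : ∀ ν, Dom O g ν0 ν →
      ν.valuation x < 1 ∨ ν.valuation (x - 1) < 1 ∨ 1 < ν.valuation x) :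
    (∀ ν, Dom O g ν0 ν → ν.valuation x < 1) ∨ (∀ ν, Dom O g ν0 ν → ν.valuation (x - 1) < 1) ∨
      (∀ ν, Dom O g ν0 ν → 1 < ν.valuation x) := by
  -- an auxiliary element
  obtain ⟨β, hβ⟩ : ∃ β : k, β * (β - 1) = 1 := by
    obtain ⟨β, hβ⟩ := IsAlgClosed.exists_root (Polynomial.X ^ 2 - Polynomial.X - 1 :
      Polynomial k) (by
        have : (Polynomial.X ^ 2 - Polynomial.X - 1 : Polynomial k) =
          Polynomial.C 1 * Polynomial.X ^ 2 + Polynomial.C (-1) * Polynomial.X +
            Polynomial.C (-1) := by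
          simp only [map_neg, map_one]; ring
        rw [this, Polynomial.degree_quadratic one_ne_zero]; decide)
    refine ⟨β, ?_⟩
    have : β ^ 2 - β - 1 = 0 := by simpa [Polynomial.IsRoot] using hβ
    linear_combination this
  have hβ0 : β ≠ 0 := by rintro rfl; simp at hβ
  have hβ1 : β - 1 ≠ 0 := by intro h; rw [h, mul_zero] at hβ; exact zero_ne_one hβ
  have hβv : O.valuation β = 1 := by
    have h1 : O.valuation β * O.valuation (β - 1) = 1 := by rw [← map_mul, hβ, map_one]
    rcases lt_trichotomy (O.valuation β) 1 with h | h | h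
    · exfalso
      have h2 : O.valuation (β - 1) = 1 := by
        rw [← Valuation.map_neg, neg_sub, Valuation.map_one_sub_of_lt _ h]
      rw [h2, mul_one] at h1
      exact h.ne h1
    · exact h
    · exfalso
      have h2 : O.valuation (β - 1) = O.valuation β := by
        rw [sub_eq_add_neg]
        refine Valuation.map_add_eq_of_lt_left _ ?_
        rwa [Valuation.map_neg, map_one]
      rw [h2] at h1
      have : 1 < O.valuation β * O.valuation β := one_lt_mul'' h h
      exact this.ne' h1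
  have hβ1v : O.valuation (β - 1) = 1 := by
    have h1 : O.valuation β * O.valuation (β - 1) = 1 := by rw [← map_mul, hβ, map_one]
    rwa [hβv, one_mul] at h1
  set B : K := algebraMap k K β with hBdef
  have hBB : B * (B - 1) = 1 := by
    have := congrArg (algebraMap k K) hβ
    rwa [map_mul, map_sub, map_one] at this
  have hB0 : B ≠ 0 := (_root_.map_ne_zero _).2 hβ0
  have hB10 : B - 1 ≠ 0 := by
    intro h; rw [h, mul_zero] at hBB; exact zero_ne_one hBB
  have hvB : ∀ ν, Dom O g ν0 ν → ν.valuation B = 1 ∧ ν.valuation (B - 1) = 1 := by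
    intro ν hν
    have hext := dom_ext hB hν
    refine ⟨(hext.eq_one_iff β).2 hβv, ?_⟩
    have := (hext.eq_one_iff (β - 1)).2 hβ1v
    rwa [map_sub, map_one] at this
  -- the three residues of `1 / (x - β)`
  have key : ∀ ν, Dom O g ν0 ν →
      (ν.valuation x < 1 → ν.valuation ((x - B)⁻¹ - algebraMap k K (-β⁻¹)) < 1) ∧
      (ν.valuation (x - 1) < 1 → ν.valuation ((x - B)⁻¹ - algebraMap k K (-(β - 1)⁻¹)) < 1) ∧
      (1 < ν.valuation x → ν.valuation ((x - B)⁻¹ - algebraMap k K 0) < 1) := by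
    intro ν hν
    obtain ⟨h1, h2⟩ := hvB ν hν
    refine ⟨fun h => ?_, fun h => ?_, fun h => ?_⟩
    · have h3 : ν.valuation (x - B) = 1 := by
        rw [← neg_sub, Valuation.map_neg, sub_eq_add_neg]
        rw [Valuation.map_add_eq_of_lt_left _ (by rwa [Valuation.map_neg, h1]), h1]
      have h4 : x - B ≠ 0 := by
        intro h0; rw [h0, map_zero] at h3; exact zero_ne_one h3
      have e : (x - B)⁻¹ - algebraMap k K (-β⁻¹) = x * ((x - B)⁻¹ * B⁻¹) := by
        rw [map_neg, map_inv₀, ← hBdef]; field_simp; ring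
      rw [e, map_mul, map_mul, map_inv₀, map_inv₀, h3, h1, inv_one, mul_one, mul_one]
      exact h
    · have h3 : ν.valuation (x - B) = 1 := by
        have e : x - B = -(B - 1) + (x - 1) := by ring
        rw [e, Valuation.map_add_eq_of_lt_left _ (by rwa [Valuation.map_neg, h2]),
          Valuation.map_neg, h2]
      have h4 : x - B ≠ 0 := by
        intro h0; rw [h0, map_zero] at h3; exact zero_ne_one h3
      have e : (x - B)⁻¹ - algebraMap k K (-(β - 1)⁻¹) = (x - 1) * ((x - B)⁻¹ * (B - 1)⁻¹) := by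
        rw [map_neg, map_inv₀, map_sub, map_one, ← hBdef]; field_simp; ring
      rw [e, map_mul, map_mul, map_inv₀, map_inv₀, h3, h2, inv_one, mul_one, mul_one]
      exact h
    · rw [map_zero, sub_zero, map_inv₀]
      have h3 : ν.valuation (x - B) = ν.valuation x := by
        rw [sub_eq_add_neg]
        refine Valuation.map_add_eq_of_lt_left _ ?_
        rwa [Valuation.map_neg, h1]
      rw [h3]
      exact inv_lt_one_of_one_lt₀ h
  classical
  have hfin := const_fin hB (x := (x - B)⁻¹) {-β⁻¹, -(β - 1)⁻¹, 0} (by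
      intro ν hν
      obtain ⟨k1, k2, k3⟩ := key ν hν
      rcases hx ν hν with h | h | h
      · exact ⟨_, by simp, k1 h⟩
      · exact ⟨_, by simp, k2 h⟩
      · exact ⟨_, by simp, k3 h⟩) (by
      intro α hα
      rw [← ValuationSubring.valuation_le_one_iff]
      simp only [Finset.mem_insert, Finset.mem_singleton] at hα
      rcases hα with rfl | rfl | rfl
      · rw [Valuation.map_neg, map_inv₀, hβv, inv_one]
      · rw [Valuation.map_neg, map_inv₀, hβ1v, inv_one]
      · rw [map_zero]; exact zero_le_one)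
  obtain ⟨α, hα, hall⟩ := hfin
  -- different residues
  have hdiff : ∀ ν, Dom O g ν0 ν → ∀ α₁ α₂ : k, O.valuation (α₁ - α₂) = 1 →
      ν.valuation ((x - B)⁻¹ - algebraMap k K α₁) < 1 →
      ν.valuation ((x - B)⁻¹ - algebraMap k K α₂) < 1 → False := by
    intro ν hν α₁ α₂ h12 h1 h2
    have h3 := (dom_ext hB hν).eq_one_iff (α₁ - α₂)
    have h4 : ν.valuation (algebraMap k K (α₁ - α₂)) < 1 := by
      have e : algebraMap k K (α₁ - α₂) = -((x - B)⁻¹ - algebraMap k K α₁) +
          ((x - B)⁻¹ - algebraMap k K α₂) := by rw [map_sub]; ring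
      rw [e]
      exact Valuation.map_add_lt _ (by rwa [Valuation.map_neg]) h2
    rw [h3.2 h12] at h4
    exact lt_irrefl _ h4
  have d12 : O.valuation (-β⁻¹ - -(β - 1)⁻¹) = 1 := by
    have e : -β⁻¹ - -(β - 1)⁻¹ = 1 := by
      field_simp
      linear_combination -hβ
    rw [e, map_one]
  have d21 : O.valuation (-(β - 1)⁻¹ - -β⁻¹) = 1 := by
    rw [← Valuation.map_neg, neg_sub]; exact d12
  have d13 : O.valuation (-β⁻¹ - 0) = 1 := by
    rw [sub_zero, Valuation.map_neg, map_inv₀, hβv, inv_one]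
  have d23 : O.valuation (-(β - 1)⁻¹ - 0) = 1 := by
    rw [sub_zero, Valuation.map_neg, map_inv₀, hβ1v, inv_one]
  have d31 : O.valuation (0 - -β⁻¹) = 1 := by
    rw [← Valuation.map_neg, neg_sub]; exact d13
  have d32 : O.valuation (0 - -(β - 1)⁻¹) = 1 := by
    rw [← Valuation.map_neg, neg_sub]; exact d23
  simp only [Finset.mem_insert, Finset.mem_singleton] at hα
  rcases hα with rfl | rfl | rfl
  · refine Or.inl fun ν hν => ?_
    obtain ⟨k1, k2, k3⟩ := key ν hν
    rcases hx ν hν with h | h | h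
    · exact h
    · exact (hdiff ν hν _ _ d12 (hall ν hν) (k2 h)).elim
    · exact (hdiff ν hν _ _ d13 (hall ν hν) (k3 h)).elim
  · refine Or.inr (Or.inl fun ν hν => ?_)
    obtain ⟨k1, k2, k3⟩ := key ν hν
    rcases hx ν hν with h | h | h
    · exact (hdiff ν hν _ _ d21 (hall ν hν) (k1 h)).elim
    · exact h
    · exact (hdiff ν hν _ _ d23 (hall ν hν) (k3 h)).elim
  · refine Or.inr (Or.inr fun ν hν => ?_)
    obtain ⟨k1, k2, k3⟩ := key ν hν
    rcases hx ν hν with h | h | h
    · exact (hdiff ν hν _ _ d31 (hall ν hν) (k1 h)).elim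
    · exact (hdiff ν hν _ _ d32 (hall ν hν) (k2 h)).elim
    · exact h

/-- below a valuation ring containing `Loc` there is a dominating one -/
theorem exists_dom_le (hB : Base O g ν0) (hν : Loc O g ν0 ≤ ν.toSubring) :
    ∃ ν', ν' ≤ ν ∧ Dom O g ν0 ν' := by
  -- the ring `Loc + m_ν`
  let R : Subring K :=
    { carrier := {x | ∃ c ∈ Loc O g ν0, ν.valuation (x - c) < 1}
      mul_mem' := by
        rintro x y ⟨c, hc, h1⟩ ⟨d, hd, h2⟩
        refine ⟨c * d, mul_mem hc hd, ?_⟩
        have hcv : ν.valuation c ≤ 1 := (ValuationSubring.valuation_le_one_iff _ _).2 (hν hc)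
        have hdv : ν.valuation d ≤ 1 := (ValuationSubring.valuation_le_one_iff _ _).2 (hν hd)
        have hyv : ν.valuation y ≤ 1 := by
          have := ν.valuation.map_add_le h2.le hdv
          rwa [sub_add_cancel] at this
        have e : x * y - c * d = (x - c) * y + c * (y - d) := by ring
        rw [e]
        apply Valuation.map_add_lt
        · rw [map_mul]; exact mul_lt_one_of_lt_of_le h1 hyv
        · rw [map_mul]; exact lt1_of_le_of_lt hcv h2
      one_mem' := ⟨1, one_mem _, by rw [sub_self, map_zero]; exact zero_lt_one⟩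
      add_mem' := by
        rintro x y ⟨c, hc, h1⟩ ⟨d, hd, h2⟩
        refine ⟨c + d, add_mem hc hd, ?_⟩
        rw [show x + y - (c + d) = (x - c) + (y - d) by ring]
        exact Valuation.map_add_lt _ h1 h2
      zero_mem' := ⟨0, zero_mem _, by rw [sub_self, map_zero]; exact zero_lt_one⟩
      neg_mem' := by
        rintro x ⟨c, hc, h1⟩
        refine ⟨-c, neg_mem hc, ?_⟩
        rw [show -x - -c = -(x - c) by ring, Valuation.map_neg]; exact h1 }
  have hcv : ∀ c ∈ Loc O g ν0, ν.valuation c ≤ 1 := fun c hc =>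
    (ValuationSubring.valuation_le_one_iff _ _).2 (hν hc)
  let I : Ideal R :=
    { carrier := {x | ∃ c ∈ Loc O g ν0, ν0.valuation c < 1 ∧ ν.valuation ((x : K) - c) < 1}
      add_mem' := by
        rintro x y ⟨c, hc, h0, h1⟩ ⟨d, hd, h0', h2⟩
        refine ⟨c + d, add_mem hc hd, Valuation.map_add_lt _ h0 h0', ?_⟩
        rw [show ((x + y : R) : K) - (c + d) = ((x : K) - c) + ((y : K) - d) by
          rw [Subring.coe_add]; ring]
        exact Valuation.map_add_lt _ h1 h2
      zero_mem' := ⟨0, zero_mem _, by rw [map_zero]; exact zero_lt_one, by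
        rw [Subring.coe_zero, sub_self, map_zero]; exact zero_lt_one⟩
      smul_mem' := by
        rintro ⟨r, d, hd, h2⟩ x ⟨c, hc, h0, h1⟩
        refine ⟨d * c, mul_mem hd hc, ?_, ?_⟩
        · rw [map_mul]; exact lt1_of_le_of_lt (Loc_val hB hd) h0
        · have hrv : ν.valuation r ≤ 1 := by
            have := ν.valuation.map_add_le h2.le (hcv d hd)
            rwa [sub_add_cancel] at this
          have e : (((⟨r, d, hd, h2⟩ : R) • x : R) : K) - d * c =
              r * ((x : K) - c) + (r - d) * c := by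
            rw [smul_eq_mul, Subring.coe_mul]; ring
          rw [e]
          apply Valuation.map_add_lt
          · rw [map_mul]; exact lt1_of_le_of_lt hrv h1
          · rw [map_mul]; exact mul_lt_one_of_lt_of_le h2 (hcv c hc) }
  have hI : I ≠ ⊤ := by
    rw [Ne, Ideal.eq_top_iff_one]
    rintro ⟨c, hc, h0, h1⟩
    rw [Subring.coe_one] at h1
    have h2 : ν0.valuation (1 - c) = 1 := Valuation.map_one_sub_of_lt _ h0
    have h3 := Loc_inv hB (sub_mem (one_mem _) hc) h2
    have h4 := hcv _ h3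
    have h5 : (1 - c) ≠ 0 := by intro h; rw [h, map_zero] at h2; exact zero_ne_one h2
    rw [map_inv₀, inv_le_one₀ (zero_lt_iff.2 ((ν.valuation.ne_zero_iff).2 h5))] at h4
    exact absurd h1 (not_lt.2 h4)
  obtain ⟨V, hV1, hV2⟩ := Ideal.image_subset_nonunits_valuationSubring I hI
  have hsmall : ∀ x : K, ν.valuation x < 1 → V.valuation x < 1 := by
    intro x hx
    rw [← ValuationSubring.mem_nonunits_iff]
    have hxR : x ∈ R := ⟨0, zero_mem _, by rwa [sub_zero]⟩
    exact hV2 ⟨⟨x, hxR⟩, ⟨0, zero_mem _, by rw [map_zero]; exact zero_lt_one, by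
      rwa [sub_zero]⟩, rfl⟩
  have hLR : Loc O g ν0 ≤ R := fun c hc => ⟨c, hc, by rw [sub_self, map_zero]; exact zero_lt_one⟩
  refine ⟨V, ?_, dom_of hB (hLR.trans hV1) fun x hx h => ?_⟩
  · intro y hy
    by_contra hyν
    have h1 : 1 < ν.valuation y := by
      rw [← not_le, ValuationSubring.valuation_le_one_iff]; exact hyν
    have h2 : ν.valuation y⁻¹ < 1 := by rw [map_inv₀]; exact inv_lt_one_of_one_lt₀ h1
    have h3 := hsmall _ h2
    have hy0 : y ≠ 0 := by rintro rfl; exact hyν (zero_mem _)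
    rw [map_inv₀, inv_lt_one₀ (zero_lt_iff.2 ((V.valuation.ne_zero_iff).2 hy0))] at h3
    exact absurd ((ValuationSubring.valuation_le_one_iff _ _).2 hy) (not_le.2 h3)
  · rw [← ValuationSubring.mem_nonunits_iff]
    have hxL : x ∈ Loc O g ν0 := Bp_le_Loc hx
    exact hV2 ⟨⟨x, hLR hxL⟩, ⟨x, hxL, h, by
      show ν.valuation (x - x) < 1
      rw [sub_self, map_zero]; exact zero_lt_one⟩, rfl⟩

namespace B2

theorem comp_lt_iff' {P : ValuationSubring K} (hP : IsPl k P) (O : ValuationSubring k) {x : K}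
    {α : k} (hα : α ∈ O) (hx : P.valuation (x - algebraMap k K α) < 1) :
    (comp P hP O).valuation x < 1 ↔ O.valuation α < 1 := by
  have hle : ∀ γ : k, P.valuation (algebraMap k K γ) ≤ 1 := by
    intro γ
    by_cases h : γ = 0
    · rw [h, map_zero, map_zero]; exact zero_le_one
    · exact (hP.cst γ h).le
  have hxP : P.valuation x ≤ 1 := by
    have := P.valuation.map_add_le hx.le (hle α)
    rwa [sub_add_cancel] at this
  have hxc : x ∈ comp P hP O := ⟨α, hα, hx⟩
  constructor
  · intro h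
    by_contra hc
    have h1 : O.valuation α = 1 :=
      le_antisymm ((ValuationSubring.valuation_le_one_iff _ _).2 hα) (not_lt.1 hc)
    have hα0 : α ≠ 0 := by rintro rfl; rw [map_zero] at h1; exact zero_ne_one h1
    have h2 := hP.cst α hα0
    have h3 : P.valuation x = 1 := by
      have e : x = algebraMap k K α + (x - algebraMap k K α) := by ring
      rw [e, Valuation.map_add_eq_of_lt_left _ (by rwa [h2]), h2]
    have hx0 : x ≠ 0 := by rintro rfl; rw [map_zero] at h3; exact zero_ne_one h3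
    have hα0' : algebraMap k K α ≠ 0 := (_root_.map_ne_zero _).2 hα0
    have h4 : x⁻¹ ∈ comp P hP O := by
      refine ⟨α⁻¹, ?_, ?_⟩
      · rw [← ValuationSubring.valuation_le_one_iff, map_inv₀, h1, inv_one]
      · have e : x⁻¹ - algebraMap k K α⁻¹
            = -(x - algebraMap k K α) * (x⁻¹ * (algebraMap k K α)⁻¹) := by
          rw [map_inv₀]; field_simp; ring
        rw [e, map_mul, Valuation.map_neg, map_mul, map_inv₀, map_inv₀, h2, h3, inv_one, mul_one,
          mul_one]
        exact hx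
    rw [← ValuationSubring.valuation_le_one_iff, map_inv₀,
      inv_le_one₀ (zero_lt_iff.2 (((comp P hP O).valuation.ne_zero_iff).2 hx0))] at h4
    exact absurd h (not_lt.2 h4)
  · intro h
    by_contra hc
    rw [not_lt] at hc
    have h1 : (comp P hP O).valuation x = 1 :=
      le_antisymm ((ValuationSubring.valuation_le_one_iff _ _).2 hxc) hc
    have hx0 : x ≠ 0 := by rintro rfl; rw [map_zero] at h1; exact zero_ne_one h1
    have h4 : x⁻¹ ∈ comp P hP O := by
      rw [← ValuationSubring.valuation_le_one_iff, map_inv₀, h1, inv_one]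
    obtain ⟨γ, hγ, h5⟩ := h4
    have h6 : P.valuation (algebraMap k K (1 - γ * α)) < 1 := by
      have e : algebraMap k K (1 - γ * α) = x * (x⁻¹ - algebraMap k K γ) +
          algebraMap k K γ * (x - algebraMap k K α) := by
        rw [map_sub, map_mul, map_one, mul_sub, mul_inv_cancel₀ hx0]; ring
      rw [e]
      apply Valuation.map_add_lt
      · rw [map_mul]; exact lt1_of_le_of_lt hxP h5
      · rw [map_mul]; exact lt1_of_le_of_lt (hle γ) hx
    have h7 : 1 - γ * α = 0 := by
      by_contra h8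
      rw [hP.cst _ h8] at h6
      exact lt_irrefl _ h6
    have h8 : O.valuation γ * O.valuation α = 1 := by
      rw [← map_mul, ← sub_eq_zero.1 h7, map_one]
    have h9 : O.valuation γ * O.valuation α < 1 :=
      lt1_of_le_of_lt ((ValuationSubring.valuation_le_one_iff _ _).2 hγ) h
    exact absurd h8 h9.ne

end B2

/-- places above `Loc`: the composite with `O` dominates -/
theorem IsDel.dom (hB : Base O g ν0) {P : ValuationSubring K} (hP : IsDel O g ν0 P) :
    Dom O g ν0 (comp P hP.pl O) := by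
  have hLP : ∀ c ∈ Loc O g ν0, P.valuation c ≤ 1 := fun c hc =>
    (ValuationSubring.valuation_le_one_iff _ _).2 (hP.le hc)
  -- elements of `Loc` which are small at `P` are small at `ν0`
  have hsm : ∀ c ∈ Loc O g ν0, P.valuation c < 1 → ν0.valuation c < 1 := by
    intro c hc h
    by_contra hn
    have h1 : ν0.valuation c = 1 := le_antisymm (Loc_val hB hc) (not_lt.1 hn)
    have h2 := hLP _ (Loc_inv hB hc h1)
    have hc0 : c ≠ 0 := by rintro rfl; rw [map_zero] at h1; exact zero_ne_one h1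
    rw [map_inv₀, inv_le_one₀ (zero_lt_iff.2 ((P.valuation.ne_zero_iff).2 hc0))] at h2
    exact absurd h (not_lt.2 h2)
  have hgL : g ∈ Loc O g ν0 := Bp_le_Loc g_mem
  obtain ⟨α, hα⟩ := hP.pl.res g (hLP g hgL)
  have hαO : α ∈ O := by
    by_contra hn
    have h1 : 1 < O.valuation α := by
      rw [← not_le, ValuationSubring.valuation_le_one_iff]; exact hn
    have h2 : O.valuation α⁻¹ < 1 := by rw [map_inv₀]; exact inv_lt_one_of_one_lt₀ h1
    have hα0 : α ≠ 0 := by rintro rfl; exact hn (zero_mem _)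
    have hα0' : algebraMap k K α ≠ 0 := (_root_.map_ne_zero _).2 hα0
    have h3 : α⁻¹ ∈ O := (ValuationSubring.valuation_le_one_iff _ _).1 h2.le
    have h4 : algebraMap k K α⁻¹ * g - 1 ∈ Loc O g ν0 :=
      sub_mem (mul_mem (Bp_le_Loc (alg_mem h3)) hgL) (one_mem _)
    have h5 : P.valuation (algebraMap k K α⁻¹ * g - 1) < 1 := by
      have e : algebraMap k K α⁻¹ * g - 1 = algebraMap k K α⁻¹ * (g - algebraMap k K α) := by
        rw [map_inv₀, mul_sub, inv_mul_cancel₀ hα0']
      rw [e, map_mul, hP.pl.cst _ (inv_ne_zero hα0), one_mul]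
      exact hα
    have h6 := hsm _ h4 h5
    have h7 : ν0.valuation (algebraMap k K α⁻¹ * g) < 1 := by
      rw [map_mul]
      exact mul_lt_one_of_lt_of_le ((hB.ext.lt_one_iff _).2 h2) (Loc_val hB hgL)
    have h8 : ν0.valuation (algebraMap k K α⁻¹ * g - 1) = 1 := by
      rw [← Valuation.map_neg, neg_sub, Valuation.map_one_sub_of_lt _ h7]
    exact absurd h8 h6.ne
  have hle : Bp O g ≤ (comp P hP.pl O).toSubring := by
    refine Bp_le (fun β hβ => ⟨β, hβ, ?_⟩) ⟨α, hαO, hα⟩
    rw [sub_self, map_zero]; exact zero_lt_one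
  refine ⟨hle, fun x hx => ?_⟩
  obtain ⟨β, hβ, h⟩ := hle hx
  rw [comp_lt_iff' hP.pl O hβ h, ← hB.ext.lt_one_iff]
  have h1 : ν0.valuation (x - algebraMap k K β) < 1 :=
    hsm _ (sub_mem (Bp_le_Loc hx) (Bp_le_Loc (alg_mem hβ))) h
  constructor
  · intro h2
    have := Valuation.map_add_lt _ h1 h2
    rwa [sub_add_cancel] at this
  · intro h2
    have e : algebraMap k K β = x + -(x - algebraMap k K β) := by ring
    rw [e]
    exact Valuation.map_add_lt _ h2 (by rwa [Valuation.map_neg])

end B2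

end Pool.Agent.helper56.P3
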