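import Pool.Agent.helper36.P3.Places
import Pool.Agent.helper56.P3.MaxEnd
import Pool.Agent.helper56.P3.StatusEnd
import Pool.Agent.helper62.P3.RepTau
import Pool.Agent.helper67.P3.Rank
import Pool.Agent.helper8.P3.Dom
import Pool.Agent.helper91.P3.Dyadic
import Pool.Agent.helper95.P3.ClassifyA
import Pool.Agent.helper96.P3.Gauss
import Pool.Agent.helper99.P3.RootOrder

/-!
# P3, module H6: the setup of the repelling case
-/

namespace Pool.Agent.helper56.P3

open Finset Pool.Agent.helper56.Per

namespace H6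

section val

variable {K : Type*} [Field K] {Γ : Type*} [LinearOrderedCommGroupWithZero Γ]
  (v : Valuation K Γ)

theorem pow_sub_lt {x y : K} (hx : v x ≤ 1) (hy : v y ≤ 1) (h : v (x - y) < 1) (j : ℕ) :
    v (x ^ j - y ^ j) < 1 := by
  induction j with
  | zero => rw [pow_zero, pow_zero, sub_self, map_zero]; exact zero_lt_one
  | succ j ih =>
    have e : x ^ (j + 1) - y ^ (j + 1) = x * (x ^ j - y ^ j) + (x - y) * y ^ j := by ring
    rw [e]
    apply Valuation.map_add_lt
    · rw [map_mul]; exact lt1_of_le_of_lt hx ih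
    · rw [map_mul, map_pow]; exact lt1_of_lt_of_le h (pow_le_one' hy j)

theorem sq_lt {x : K} (h : v (x ^ 2) < 1) : v x < 1 := by
  by_contra hc
  rw [not_lt] at hc
  rw [map_pow] at h
  exact absurd h (not_lt.2 (one_le_pow_of_one_le' hc 2))

end val

variable {k K : Type*} [Field k] [Field K] [Algebra k K] {O : ValuationSubring k} {g : K}
  {ν0 : ValuationSubring K}

/-- Gauss norms are invariant under translations -/
theorem rt_add {ν : ValuationSubring K} {b : K} {ζ : k} (hζ : ζ ∈ O)
    (h : RT O (b - algebraMap k K ζ) ν) : RT O b ν := by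
  intro p hp hp1
  classical
  -- the translated polynomial
  set r : Polynomial k := p.comp (Polynomial.X + Polynomial.C ζ) with hr
  have hval : Polynomial.aeval (b - algebraMap k K ζ) r = Polynomial.aeval b p := by
    rw [hr, Polynomial.aeval_comp]
    congr 1
    rw [map_add, Polynomial.aeval_X, Polynomial.aeval_C]; ring
  rw [← hval]
  -- lift to `O`
  have hps : (↑p.coeffs : Set k) ⊆ (O.toSubring : Set k) := by
    intro y hy
    rw [Finset.mem_coe, Polynomial.mem_coeffs_iff] at hy
    obtain ⟨n, _, rfl⟩ := hy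
    exact (ValuationSubring.valuation_le_one_iff _ _).1 (hp n)
  set P : Polynomial O.toSubring := p.toSubring O.toSubring hps with hP
  have hPp : P.map O.toSubring.subtype = p := by
    ext i
    rw [Polynomial.coeff_map]
    exact Polynomial.coeff_toSubring p O.toSubring hps
  set z : O.toSubring := ⟨ζ, hζ⟩ with hz
  set R : Polynomial O.toSubring := P.comp (Polynomial.X + Polynomial.C z) with hR
  have hRr : R.map O.toSubring.subtype = r := by
    rw [hR, Polynomial.map_comp, hPp, hr, Polynomial.map_add, Polynomial.map_X,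
      Polynomial.map_C]; rfl
  have hcoef : ∀ i, (R.coeff i : k) = r.coeff i := by
    intro i
    rw [← hRr, Polynomial.coeff_map]; rfl
  refine h r (fun i => ?_) ?_
  · rw [← hcoef]
    exact (ValuationSubring.valuation_le_one_iff _ _).2 (R.coeff i).2
  · by_contra hne
    push Not at hne
    have hlt : ∀ i, O.valuation (R.coeff i : k) < 1 := by
      intro i
      rw [hcoef]
      refine lt_of_le_of_ne ?_ (hne i)
      rw [← hcoef]
      exact (ValuationSubring.valuation_le_one_iff _ _).2 (R.coeff i).2
    -- translate back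
    have hback : P = R.comp (Polynomial.X - Polynomial.C z) := by
      rw [hR, Polynomial.comp_assoc]
      simp
    have hlocO : IsLocalRing O.toSubring := inferInstanceAs (IsLocalRing O)
    have hRres : R.map (IsLocalRing.residue O.toSubring) = 0 := by
      ext i
      rw [Polynomial.coeff_map, Polynomial.coeff_zero, IsLocalRing.residue_eq_zero_iff]
      exact (ValuationSubring.valuation_lt_one_iff O (R.coeff i)).2 (hlt i)
    have hPres : P.map (IsLocalRing.residue O.toSubring) = 0 := by
      rw [hback, Polynomial.map_comp, hRres, Polynomial.zero_comp]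
    obtain ⟨i, hi⟩ := hp1
    have h1 : IsLocalRing.residue O.toSubring (P.coeff i) = 0 := by
      rw [← Polynomial.coeff_map, hPres, Polynomial.coeff_zero]
    rw [IsLocalRing.residue_eq_zero_iff] at h1
    have h2 : O.valuation ((P.coeff i : O.toSubring) : k) < 1 :=
      (ValuationSubring.valuation_lt_one_iff O (P.coeff i)).1 h1
    have h3 : ((P.coeff i : O.toSubring) : k) = p.coeff i :=
      Polynomial.coeff_toSubring p O.toSubring hps
    rw [h3, hi] at h2
    exact lt_irrefl _ h2

end H6

section H6s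

variable {k K : Type*} [Field k] [Field K] [Algebra k K] [IsAlgClosed k] [IsAlgClosed K]
  [CharZero k] [Algebra.IsAlgebraic ℚ k] {n m : ℕ} {lam lam' : k} {a b x3 c : K} {W W' : ℕ → K}
  {O : ValuationSubring k} {g : K} {ν0 : ValuationSubring K} {q0 L : ℕ}

/-- V1, V2, V4: the setup of the repelling case -/
theorem rep_setup {P : ValuationSubring K} {q : ℕ} (G : Glob n m lam lam' a b x3 c W W')
    (hM : Mixed k P b c W W' q) (h2 : O.valuation 2 < 1)
    (hmax : ∀ P' q', Mixed k P' b c W W' q' → q' ≤ q)
    {t : k} (ht : P.valuation (TT b c q - algebraMap k K t) < 1) (ht1 : 1 < O.valuation t)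
    (hl : 1 < O.valuation lam) :
    ∃ (g : K) (ν0 : ValuationSubring K) (q0 L : ℕ), Rep O g ν0 b c q0 L W W' := by
  obtain ⟨ζ, hζ⟩ := hM.pl.res b hM.ctx.vb.le
  have hcst : ∀ α : k, P.valuation (algebraMap k K α) < 1 → α = 0 := by
    intro α h
    by_contra h0
    rw [hM.pl.cst α h0] at h
    exact lt_irrefl _ h
  have hcle : ∀ α : k, P.valuation (algebraMap k K α) ≤ 1 := by
    intro α
    by_cases h : α = 0
    · rw [h, map_zero, map_zero]; exact zero_le_one
    · exact (hM.pl.cst α h).le
  have hpowP := H6.pow_sub_lt P.valuation hM.ctx.vb.le (hcle ζ) hζ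
  have hq2 := hM.rot.two_le
  have hζq : ζ ^ q = 1 := by
    have h1 : P.valuation (algebraMap k K (ζ ^ q - 1)) < 1 := by
      have e : algebraMap k K (ζ ^ q - 1) = -(b ^ q - algebraMap k K ζ ^ q) + (b ^ q - 1) := by
        rw [map_sub, map_pow, map_one]; ring
      rw [e]
      refine Valuation.map_add_lt _ (by rw [Valuation.map_neg]; exact hpowP q) ?_
      exact hM.rot.le.trans_lt hM.ctx.vc
    exact sub_eq_zero.1 (hcst _ h1)
  have hprim : IsPrimitiveRoot ζ q := by
    refine IsPrimitiveRoot.mk_of_lt ζ (by omega) hζq fun l hl0 hlq h => ?_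
    have h1 := hM.rot.one l hl0 hlq
    have h2 := hpowP l
    rw [← map_pow, h, map_one, h1] at h2
    exact lt_irrefl _ h2
  obtain ⟨q0, L, hq0, hqL, hr1, hr2⟩ := root_order O.valuation h2 (by omega) hprim
  obtain ⟨s1, s2, s3, ⟨j0, s4⟩, ⟨j1, s5⟩, s6, s7⟩ := status_at_end G hM h2 hq0 hqL ht ht1
  have hOζ : O.valuation ζ = 1 := by
    have h1 : O.valuation ζ ^ q = 1 := by rw [← map_pow, hζq, map_one]
    exact (pow_eq_one_iff.1 h1).resolve_right (by omega)
  have hζO : ζ ∈ O := (ValuationSubring.valuation_le_one_iff _ _).1 hOζ.le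
  have hB : Base O (b - algebraMap k K ζ) (comp P hM.pl O) := by
    refine ⟨comp_ext hM.pl O, ?_, ?_, rank_one O h2⟩
    · exact (ValuationSubring.valuation_le_one_iff _ _).1 (comp_lt_of_lt hM.pl O hζ).le
    · rintro ⟨γ, hγ⟩
      have h1 : γ = 0 := hcst γ (by rw [hγ]; exact hζ)
      rw [h1, map_zero] at hγ
      have hbz : b = algebraMap k K ζ := (sub_eq_zero.1 hγ.symm)
      have h3 : TT b c q = 0 := by
        unfold TT
        rw [hbz, inv_pow, ← map_pow, hζq, map_one, inv_one, sub_self, zero_div]
      rw [h3, zero_sub, Valuation.map_neg] at ht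
      rw [hcst t ht, map_zero] at ht1
      exact not_lt_zero ht1
  set ν0 := comp P hM.pl O with hν0
  have hc0 : c ≠ 0 := G.hW.c0
  have hab1 : a * b ≠ 1 := by
    intro h
    have := G.hc
    rw [h, sub_self] at this
    exact hc0 (pow_eq_zero_iff (two_ne_zero) |>.1 this)
  obtain ⟨z, y, hz, -, -⟩ := G.ts.ab hab1
  -- basic facts at dominating valuations
  have hlam : ∀ ν : ValuationSubring K, Ext O ν.valuation →
      1 < ν.valuation (algebraMap k K lam) := fun ν E => (E.one_lt_iff lam).2 hl
  have hsmall : ∀ ν : ValuationSubring K, Ext O ν.valuation → ν.valuation a ≤ 1 →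
      ν.valuation b ≤ 1 → ν.valuation (a * b - 1) < 1 := by
    intro ν E h1 h2
    have h3 : ν.valuation (1 - a * b) ≤ 1 := by
      rw [sub_eq_add_neg]
      refine ν.valuation.map_add_le (map_one _).le ?_
      rw [Valuation.map_neg, map_mul]
      exact mul_le_one' h1 h2
    rcases h3.lt_or_eq with h | h
    · rw [← Valuation.map_neg, neg_sub]; exact h
    · exact absurd (good_le_one ν.valuation hz h1 h2 h) (not_le.2 (hlam ν E))
  have hvb : ∀ ν, Dom O (b - algebraMap k K ζ) ν0 ν → ν.valuation b = 1 ∧
      ∀ j, ν.valuation (b ^ j - algebraMap k K ζ ^ j) < 1 := by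
    intro ν hν
    have E := dom_ext hB hν
    have h1 : ν.valuation (b - algebraMap k K ζ) < 1 :=
      (hν.2 _ B2.g_mem).2 (comp_lt_of_lt hM.pl O hζ)
    have h3 : ν.valuation (algebraMap k K ζ) = 1 := (E.eq_one_iff ζ).2 hOζ
    have h4 : ν.valuation b = 1 := by
      have e : b = algebraMap k K ζ + (b - algebraMap k K ζ) := by ring
      rw [e, Valuation.map_add_eq_of_lt_left _ (by rwa [h3]), h3]
    exact ⟨h4, H6.pow_sub_lt ν.valuation h4.le h3.le h1⟩
  have hab : ∀ ν, Dom O (b - algebraMap k K ζ) ν0 ν → ν.valuation (a * b - 1) < 1 := by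
    have htri : ∀ ν, Dom O (b - algebraMap k K ζ) ν0 ν → ν.valuation (a * b) < 1 ∨
        ν.valuation (a * b - 1) < 1 ∨ 1 < ν.valuation (a * b) := by
      intro ν hν
      obtain ⟨h1, -⟩ := hvb ν hν
      by_cases h : ν.valuation a ≤ 1
      · exact Or.inr (Or.inl (hsmall ν (dom_ext hB hν) h h1.le))
      · right; right
        rw [map_mul, h1, mul_one]
        exact not_le.1 h
    have hnu0 : ν0.valuation (a * b - 1) < 1 := by
      have h1 : ν0.valuation c < 1 := s6.vc
      have e : a * b - 1 = -(c * c) := by linear_combination G.hc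
      rw [e, Valuation.map_neg, map_mul]
      exact lt1_of_lt_of_le h1 h1.le
    have hnu01 : ν0.valuation (a * b) = 1 := by
      have e : a * b = 1 + (a * b - 1) := by ring
      rw [e, Valuation.map_one_add_of_lt _ hnu0]
    rcases const_P1 hB htri with h | h | h
    · have := h ν0 (dom_self hB)
      rw [hnu01] at this
      exact absurd this (lt_irrefl _)
    · exact h
    · have := h ν0 (dom_self hB)
      rw [hnu01] at this
      exact absurd this (lt_irrefl _)
  have hcab : ∀ ν : ValuationSubring K, ν.valuation (a * b - 1) < 1 → ν.valuation c < 1 := by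
    intro ν h
    apply H6.sq_lt
    rw [G.hc, ← Valuation.map_neg, neg_sub]
    exact h
  have hdctx : ∀ ν, Dom O (b - algebraMap k K ζ) ν0 ν → DCtx ν.valuation b c q0 := by
    intro ν hν
    have E := dom_ext hB hν
    obtain ⟨h1, h3⟩ := hvb ν hν
    refine ⟨?_, h1, hcab ν (hab ν hν), hc0, hq0, ?_, ?_⟩
    · have := (E.lt_one_iff 2).2 h2
      rwa [map_ofNat] at this
    · intro j hj
      have h4 : ν.valuation (algebraMap k K (ζ ^ j - 1)) = 1 :=
        (E.eq_one_iff _).2 (hr2 j hj)
      have e : b ^ j - 1 = algebraMap k K (ζ ^ j - 1) + (b ^ j - algebraMap k K ζ ^ j) := by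
        rw [map_sub, map_pow, map_one]; ring
      rw [e, Valuation.map_add_eq_of_lt_left _ (by rw [h4]; exact h3 j), h4]
    · have h4 : ν.valuation (algebraMap k K (ζ ^ q0 - 1)) < 1 :=
        (E.lt_one_iff _).2 (hr1 q0 dvd_rfl)
      have e : b ^ q0 - 1 = algebraMap k K (ζ ^ q0 - 1) + (b ^ q0 - algebraMap k K ζ ^ q0) := by
        rw [map_sub, map_pow, map_one]; ring
      rw [e]
      exact Valuation.map_add_lt _ h4 (h3 q0)
  -- level zero
  have hbase : ∀ ν, Dom O (b - algebraMap k K ζ) ν0 ν → 1 < ν.valuation (TT b c q0) := by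
    by_cases hq1 : q0 = 1
    · intro ν hν
      have D := hdctx ν hν
      rw [hq1] at D ⊢
      exact D_base1 ν.valuation D G.hW (hlam ν (dom_ext hB hν))
    · have hq1' : 1 < q0 := by
        have := hq0.pos
        omega
      classical
      have hWc : ∀ i, ∀ ν, Dom O (b - algebraMap k K ζ) ν0 ν → ν.valuation (c / W i) < 1 := by
        intro i
        have hres : ∀ ν, Dom O (b - algebraMap k K ζ) ν0 ν →
            ∃ α ∈ (Finset.range q0).image (fun s => 1 - ζ ^ s),
              ν.valuation (c / W i - algebraMap k K α) < 1 := by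
          intro ν hν
          obtain ⟨s, hs, h⟩ := D_base_res ν.valuation (hdctx ν hν) hq1' G.hW i
          refine ⟨1 - ζ ^ s, Finset.mem_image_of_mem _ (Finset.mem_range.2 hs), ?_⟩
          have e : c / W i - algebraMap k K (1 - ζ ^ s) =
              (c / W i - (1 - b ^ s)) + -(b ^ s - algebraMap k K ζ ^ s) := by
            rw [map_sub, map_pow, map_one]; ring
          rw [e]
          exact Valuation.map_add_lt _ h (by rw [Valuation.map_neg]; exact (hvb ν hν).2 s)
        obtain ⟨α, hα, hall⟩ := const_fin hB _ hres (by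
          intro α hα
          obtain ⟨s, -, rfl⟩ := Finset.mem_image.1 hα
          exact sub_mem (one_mem _) (pow_mem hζO s))
        have h0 : ν0.valuation (c / W i) < 1 := by
          rw [map_div₀, div_lt_one₀ (zero_lt_iff.2 ((ν0.valuation.ne_zero_iff).2 (G.hW.ne0 i)))]
          exact s3 i
        have h1 : ν0.valuation (algebraMap k K α) < 1 := by
          have e : algebraMap k K α = c / W i + -(c / W i - algebraMap k K α) := by ring
          rw [e]
          exact Valuation.map_add_lt _ h0
            (by rw [Valuation.map_neg]; exact hall ν0 (dom_self hB))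
        have h1' : O.valuation α < 1 := (hB.ext.lt_one_iff α).1 h1
        intro ν hν
        have e : c / W i = (c / W i - algebraMap k K α) + algebraMap k K α := by ring
        rw [e]
        exact Valuation.map_add_lt _ (hall ν hν) (((dom_ext hB hν).lt_one_iff α).2 h1')
      intro ν hν
      refine D_base2 ν.valuation (hdctx ν hν) hq1' G.hW (hlam ν (dom_ext hB hν)) fun i => ?_
      have h := hWc i ν hν
      rw [map_div₀] at h
      have hW0 : 0 < ν.valuation (W i) := zero_lt_iff.2 ((ν.valuation.ne_zero_iff).2 (G.hW.ne0 i))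
      rwa [div_lt_one₀ hW0] at h
  -- higher levels
  have hTL : ∀ l ≤ L, ∀ ν, Dom O (b - algebraMap k K ζ) ν0 ν →
      1 < ν.valuation (TT b c (q0 * 2 ^ l)) := by
    intro l
    induction l with
    | zero =>
      intro _ ν hν
      rw [pow_zero, mul_one]
      exact hbase ν hν
    | succ l ih =>
      intro hlL ν hν
      have hT := ih (by omega)
      refine D_step ν.valuation (hdctx ν hν) G.hW (hlam ν (dom_ext hB hν)) (hT ν hν) fun i => ?_
      rcases const_P1 hB (x := W i * TT b c (q0 * 2 ^ l)) (fun ν hν =>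
        D_status ν.valuation (hdctx ν hν) G.hW (hT ν hν) i) with h | h | h
      · exact absurd (h ν0 (dom_self hB)) (not_lt.2 (s2 i l (by omega)).le)
      · exfalso
        have h1 := h ν0 (dom_self hB)
        have h3 := s2 i l (by omega)
        have e : W i * TT b c (q0 * 2 ^ l) = 1 + (W i * TT b c (q0 * 2 ^ l) - 1) := by ring
        rw [e, Valuation.map_one_add_of_lt _ h1] at h3
        exact lt_irrefl _ h3
      · exact h ν hν
  have hZ : ∀ ν, Dom O (b - algebraMap k K ζ) ν0 ν → ∀ i, ∀ l < L,
      1 < ν.valuation (W i * TT b c (q0 * 2 ^ l)) := by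
    intro ν hν i l hlL
    rcases const_P1 hB (x := W i * TT b c (q0 * 2 ^ l)) (fun ν hν =>
      D_status ν.valuation (hdctx ν hν) G.hW (hTL l hlL.le ν hν) i) with h | h | h
    · exact absurd (h ν0 (dom_self hB)) (not_lt.2 (s2 i l hlL).le)
    · exfalso
      have h1 := h ν0 (dom_self hB)
      have h3 := s2 i l hlL
      have e : W i * TT b c (q0 * 2 ^ l) = 1 + (W i * TT b c (q0 * 2 ^ l) - 1) := by ring
      rw [e, Valuation.map_one_add_of_lt _ h1] at h3
      exact lt_irrefl _ h3
    · exact h ν hν
  have hZL : ∀ ν, Dom O (b - algebraMap k K ζ) ν0 ν → ∀ i,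
      ¬ ν.valuation (W i * TT b c (q0 * 2 ^ L)) < 1 := by
    intro ν hν i
    rcases const_P1 hB (x := W i * TT b c (q0 * 2 ^ L)) (fun ν hν =>
      D_status ν.valuation (hdctx ν hν) G.hW (hTL L le_rfl ν hν) i) with h | h | h
    · exact absurd (h ν0 (dom_self hB)) (s1 i)
    · have h1 := h ν hν
      have e : W i * TT b c (q0 * 2 ^ L) = 1 + (W i * TT b c (q0 * 2 ^ L) - 1) := by ring
      rw [e, Valuation.map_one_add_of_lt _ h1]
      exact lt_irrefl _
    · exact not_lt.2 (h ν hν).le
  have hYall : ∀ ν, Dom O (b - algebraMap k K ζ) ν0 ν →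
      ν.valuation (W' j0 * TT b c (q0 * 2 ^ L)) < 1 := by
    rcases const_P1 hB (x := W' j0 * TT b c (q0 * 2 ^ L)) (fun ν hν =>
      D_status ν.valuation (hdctx ν hν) G.hW' (hTL L le_rfl ν hν) j0) with h | h | h
    · exact h
    · exfalso
      have h1 := h ν0 (dom_self hB)
      have e : W' j0 * TT b c (q0 * 2 ^ L) = 1 + (W' j0 * TT b c (q0 * 2 ^ L) - 1) := by ring
      have h3 := s4
      rw [e, Valuation.map_one_add_of_lt _ h1] at h3
      exact lt_irrefl _ h3
    · exact absurd s4 (not_lt.2 (h ν0 (dom_self hB)).le)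
  -- `a` is a unit of `Loc`
  have hva : ∀ ν, Dom O (b - algebraMap k K ζ) ν0 ν → ν.valuation a = 1 := by
    intro ν hν
    have h1 := hab ν hν
    have e : a * b = 1 + (a * b - 1) := by ring
    have h3 : ν.valuation (a * b) = 1 := by rw [e, Valuation.map_one_add_of_lt _ h1]
    rwa [map_mul, (hvb ν hν).1, mul_one] at h3
  have haL : a ∈ Loc O (b - algebraMap k K ζ) ν0 := const_le hB fun ν hν => (hva ν hν).le
  have hrtb : ∀ ν, IsGauss O (b - algebraMap k K ζ) ν0 ν → RT O b ν :=
    fun ν hν => H6.rt_add hζO hν.rt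
  refine ⟨b - algebraMap k K ζ, ν0, q0, L, hB, h2, hdctx, fun ν hν l hl => hTL l hl ν hν, hZ,
    hZL, ?_, ?_, hrtb, ⟨j0, hYall⟩, ⟨j1, s5⟩⟩
  · intro P' hP'
    refine V4 G h2 hB (fun P'' q' h => ?_) hdctx (hTL L le_rfl) hZL hYall hP'
    rw [← hqL]; exact hmax P'' q' h
  · intro ν hν
    have hrt := hrtb ν hν
    have hvb1 : ν.valuation b = 1 := by
      have := hrt Polynomial.X (fun i => by
        rw [Polynomial.coeff_X]; split_ifs <;> simp) ⟨1, by simp⟩
      rwa [Polynomial.aeval_X] at this
    have hva1 : ν.valuation a ≤ 1 := (ValuationSubring.valuation_le_one_iff _ _).2 (hν.le haL)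
    refine ⟨hvb1, hcab ν (hsmall ν hν.ext hva1 hvb1.le), hc0, fun j hj => ?_⟩
    have hO1 : ∀ x : k, x = 0 ∨ x = 1 ∨ x = -1 → O.valuation x ≤ 1 := by
      rintro x (rfl | rfl | rfl) <;> simp
    have := hrt (Polynomial.X ^ j - 1) (fun i => by
        rw [Polynomial.coeff_sub, Polynomial.coeff_X_pow, Polynomial.coeff_one]
        apply hO1
        split_ifs <;> simp
        ) ⟨j, by
        rw [Polynomial.coeff_sub, Polynomial.coeff_X_pow, Polynomial.coeff_one, if_pos rfl,
          if_neg (by omega), sub_zero, map_one]⟩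
    simpa using this

end H6s

end Pool.Agent.helper56.P3
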